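import Pool.Agent.H272.IS.Hilb
import Pool.Agent.H272.IS.LpRad

/-!
# MP_f981b0_an: the invariant subspace problem passes to larger spaces

Read proved that every separable Banach space with a complemented subspace isomorphic to `ℓ_1` (or
to `c_0`) carries a bounded operator without nontrivial closed invariant subspaces. We prove the
corresponding transfer principle for reflexive spaces, where it is not known whether there are such
operators, in the form of an equivalence. Let `X` be an infinite-dimensional Banach space which is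
isomorphic to a closed subspace of a sum `ℓ_p(E n)` of finite-dimensional spaces, `1 < p < ∞` (for
instance `X = ℓ_p`, `X` a Hilbert space, `X` any closed subspace of `ℓ_p`), or, more generally, a
reflexive space with the hereditary property `SubsequencesComplemented` below, and let `F` be any
separable Banach space, reflexive or not, which contains a complemented subspace isomorphic to `X`.
All operators on `X` have nontrivial closed invariant subspaces if and only if all operators `S` on
`F` have, which factor through `X`, `S = B A`, `A : F → X` and `B : X → F` injective with dense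
ranges; and it is enough to consider those which are of the form `S = (R ⊕ 0) + K` for a
decomposition `F = W ⊕ Z`, `dim Z = ∞`, with `K` the sum of a series of operators of rank one whose
norms decrease as fast as we please.

For the Hilbert space: let `F = L_p[0,1]` for one `1 < p < ∞`, or let `F` be any separable Banach
space with a complemented infinite-dimensional Hilbert space. All operators on the Hilbert space
have nontrivial closed invariant subspaces if and only if all operators on `F` have which factor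
through a Hilbert space.

Idea of the proof. Let `T` be an operator on `X` without nontrivial invariant subspaces, translated
so that it is not invertible. As `X` is reflexive the range of the adjoint of `T` is norm dense, so
that there is a normalised weakly null sequence `x n` with `T (x n) → 0`. Passing to a subsequence and
making small perturbations of the vectors and of the functionals we get `g n ∈ X`, `h n ∈ X*` such
that `h m (T (g n)) = δ m n`, the series `Q x = ∑ h n (T x) g n` converge, `Q` is a bounded projection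
and `T Q` is nuclear (`exists_perturbed`, `exists_proj`). Let `W` be the kernel and `M` the range of
`Q`, and `F = X ⊕ L`. Then `F` is isomorphic to `W ⊕ Z`, `Z = M ⊕ L`, and with a Markushevich basis of
`Z` one writes `T = A B`, `A : W ⊕ Z → X` injective, `B : X → W ⊕ Z` with dense range; then `B A` has
no nontrivial closed invariant subspace (`transfer_factor`, `NoInv.swap`).
-/

set_option autoImplicit false

open Pool.Agent.H272.IS Filter Topology MeasureTheory
open scoped ENNReal

namespace Pool.Agent.Results.MP_f981b0_an.LargerSpaces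

/-- `T` has a closed invariant subspace other than `0` and the whole space. -/
def HasInvariant {E : Type} [NormedAddCommGroup E] [NormedSpace ℂ E] (T : E →L[ℂ] E) : Prop :=
  ∃ M : Submodule ℂ E, IsClosed (M : Set E) ∧ M ≠ ⊥ ∧ M ≠ ⊤ ∧ ∀ x ∈ M, T x ∈ M

/-- `E` is reflexive: the canonical map into the bidual is onto. -/
def Reflexive (E : Type) [NormedAddCommGroup E] [NormedSpace ℂ E] : Prop :=
  Function.Surjective (NormedSpace.inclusionInDoubleDual ℂ E)

/-- every normalised weakly null sequence has a subsequence `x (k n)` with functionals `φ n`,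
`φ n (x (k n)) = 1`, such that all series `∑ φ n y • x (k n)` converge unconditionally (this is so if
each such sequence has an unconditional basic subsequence whose closed span is complemented) -/
def SubsequencesComplemented (X : Type) [NormedAddCommGroup X] [NormedSpace ℂ X] : Prop :=
  ∀ x : ℕ → X, (∀ n, ‖x n‖ = 1) → (∀ f : X →L[ℂ] ℂ, Tendsto (fun n => f (x n)) atTop (𝓝 0)) →
    ∃ (k : ℕ → ℕ) (φ : ℕ → (X →L[ℂ] ℂ)), StrictMono k ∧ (∀ n, φ n (x (k n)) = 1) ∧
      ∀ y, Summable fun n => φ n y • x (k n)

/-- `X` is isomorphic to a subspace of the `ℓ_p`-sum of a sequence of finite-dimensional spaces,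
`1 < p < ∞`. -/
def EmbedsInSum (X : Type) [NormedAddCommGroup X] [NormedSpace ℂ X] : Prop :=
  ∃ (p : ℝ≥0∞) (_ : Fact (1 ≤ p)) (E : ℕ → Type) (_ : ∀ n, NormedAddCommGroup (E n))
    (_ : ∀ n, NormedSpace ℂ (E n)) (_ : ∀ n, FiniteDimensional ℂ (E n)),
    1 < p ∧ p ≠ ∞ ∧ ∃ (j : X →L[ℂ] lp E p) (c : ℝ), 0 < c ∧ ∀ x, c * ‖x‖ ≤ ‖j x‖

/-- `F` contains a complemented subspace isomorphic to `X`. -/
def ContainsComplemented (F X : Type) [NormedAddCommGroup F] [NormedSpace ℂ F]
    [NormedAddCommGroup X] [NormedSpace ℂ X] : Prop :=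
  ∃ (i : X →L[ℂ] F) (q : F →L[ℂ] X), ∀ x, q (i x) = x

/-- `F` is isomorphic to `L^p[0,1]` for some `1 < p < ∞`. -/
def IsomorphicToLp (F : Type) [NormedAddCommGroup F] [NormedSpace ℂ F] : Prop :=
  ∃ (p : ℝ≥0∞) (_ : Fact (1 ≤ p)), 1 < p ∧ p ≠ ∞ ∧
    Nonempty (F ≃L[ℂ] Lp ℂ p (volume.restrict (Set.Icc (0 : ℝ) 1)))

/-- `K` is the sum of a series of operators `x ↦ f n x • y n` of rank one with
`‖f n‖ * ‖y n‖ ≤ a n`. -/
def RankOneSeries {E : Type} [NormedAddCommGroup E] [NormedSpace ℂ E] (a : ℕ → ℝ)
    (K : E →L[ℂ] E) : Prop :=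
  ∃ (f : ℕ → (E →L[ℂ] ℂ)) (y : ℕ → E), (∀ n, ‖f n‖ * ‖y n‖ ≤ a n) ∧
    ∀ x, HasSum (fun n => f n x • y n) (K x)

/-- `F = W ⊕ Z` with `Z` (the kernel of `q`) infinite-dimensional, and `S = (R ⊕ 0) + K` with `R` an
operator on `W` and `K` a series of operators of rank one as above. -/
def SumForm {F : Type} [NormedAddCommGroup F] [NormedSpace ℂ F] (a : ℕ → ℝ) (S : F →L[ℂ] F) :
    Prop :=
  ∃ (W : Type) (_ : NormedAddCommGroup W) (_ : NormedSpace ℂ W) (i : W →L[ℂ] F) (q : F →L[ℂ] W)
    (R : W →L[ℂ] W) (K : F →L[ℂ] F), (∀ w, q (i w) = w) ∧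
      ¬ FiniteDimensional ℂ (LinearMap.ker (q : F →ₗ[ℂ] W)) ∧ RankOneSeries a K ∧
      S = i ∘L (R ∘L q) + K

/-- `S = B A` with `A : F → X` and `B : X → F` injective with dense ranges. -/
def FactorsDensely (X : Type) [NormedAddCommGroup X] [NormedSpace ℂ X] {F : Type}
    [NormedAddCommGroup F] [NormedSpace ℂ F] (S : F →L[ℂ] F) : Prop :=
  ∃ (A : F →L[ℂ] X) (B : X →L[ℂ] F), Function.Injective A ∧ DenseRange A ∧
    Function.Injective B ∧ DenseRange B ∧ S = B ∘L A

/-- `S = B A` for some operators `A : F → X`, `B : X → F`. -/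
def Factors (X : Type) [NormedAddCommGroup X] [NormedSpace ℂ X] {F : Type}
    [NormedAddCommGroup F] [NormedSpace ℂ F] (S : F →L[ℂ] F) : Prop :=
  ∃ (A : F →L[ℂ] X) (B : X →L[ℂ] F), S = B ∘L A

/-- all bounded operators on `X` have nontrivial closed invariant subspaces -/
def AllHaveInvariant (X : Type) [NormedAddCommGroup X] [NormedSpace ℂ X] : Prop :=
  ∀ T : X →L[ℂ] X, HasInvariant T

theorem noInv_of_not {E : Type} [NormedAddCommGroup E] [NormedSpace ℂ E] {T : E →L[ℂ] E}
    (h : ¬ HasInvariant T) : NoInv T := by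
  intro V hV hinv
  by_contra hcon
  push Not at hcon
  exact h ⟨V, hV, hcon.1, hcon.2, hinv⟩

theorem not_of_noInv {E : Type} [NormedAddCommGroup E] [NormedSpace ℂ E] {T : E →L[ℂ] E}
    (h : NoInv T) : ¬ HasInvariant T := by
  rintro ⟨V, hV, h1, h2, hinv⟩
  rcases h V hV hinv with h3 | h3
  · exact h1 h3
  · exact h2 h3

theorem of_embeds {X : Type} [NormedAddCommGroup X] [NormedSpace ℂ X] [CompleteSpace X]
    (h : EmbedsInSum X) : Reflexive X ∧ SubsequencesComplemented X := by
  obtain ⟨p, i1, E, i2, i3, i4, hp, hp', j, c, hc, hj⟩ := h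
  have hp1 : 1 < p.toReal := by
    have h1 := (ENNReal.toReal_lt_toReal ENNReal.one_ne_top hp').2 hp
    rwa [ENNReal.toReal_one] at h1
  have hd := pdec_lp E p hp hp'
  exact ⟨refl_of_embedding (hd.reflexive hp1) j c hc hj, (hd.cus hp1).of_embedding j c hc hj⟩

/-- a counterexample on `X` gives one on `F` with the factorization and the sum form -/
theorem exists_factor {X : Type} [NormedAddCommGroup X] [NormedSpace ℂ X] [CompleteSpace X]
    (hX : ¬ FiniteDimensional ℂ X) (hr : Reflexive X) (hc : SubsequencesComplemented X)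
    {F : Type} [NormedAddCommGroup F] [NormedSpace ℂ F] [CompleteSpace F]
    [TopologicalSpace.SeparableSpace F] (hF : ContainsComplemented F X) (a : ℕ → ℝ)
    (ha : ∀ n, 0 < a n) {T : X →L[ℂ] X} (hT : NoInv T) :
    ∃ S : F →L[ℂ] F, SumForm a S ∧ FactorsDensely X S ∧ NoInv S := by
  obtain ⟨i, q, hqi⟩ := hF
  obtain ⟨c, hcu⟩ := exists_sub_not_isUnit hX T
  have hN : NoInv (T - c • (1 : X →L[ℂ] X)) := hT.sub_smul_one c
  have hinj := hN.injective hX
  have hd := hN.denseRange hX
  obtain ⟨A, B, W, hW, i', q', R, hAB, hA, hB, hqi', hfd, hK⟩ := transfer_factor hr hc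
    hinj hd hcu F i q hqi a ha
  have hABx : ∀ x, A (B x) = (T - c • (1 : X →L[ℂ] X)) x := fun x =>
    congrArg (fun D : X →L[ℂ] X => D x) hAB
  refine ⟨B ∘L A, ⟨W, inferInstance, inferInstance, i', q', R, _, hqi', hfd, hK, ?_⟩,
    ⟨A, B, hA, ?_, ?_, hB, rfl⟩, NoInv.swap hA hB (by rw [hAB]; exact hN)⟩
  · rw [add_sub_cancel]
  · intro x
    refine closure_mono ?_ (hd x)
    rintro _ ⟨y, rfl⟩
    exact ⟨B y, hABx y⟩
  · intro x y hxy
    apply hinj
    rw [← hABx, ← hABx, hxy]

/-- an operator on `F` which factors through `ℓ²` and has no invariant subspaces gives one on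
`ℓ²` -/
theorem exists_noInv_of_factors {F : Type} [NormedAddCommGroup F] [NormedSpace ℂ F]
    [CompleteSpace F] (hF : ¬ FiniteDimensional ℂ F) (A : F →L[ℂ] L2) (B : L2 →L[ℂ] F)
    (h : NoInv (B ∘L A)) : ∃ T : L2 →L[ℂ] L2, NoInv T := by
  have hinj : Function.Injective (B ∘L A) := h.injective hF
  let N : Submodule ℂ L2 := LinearMap.ker (B : L2 →ₗ[ℂ] F)
  have hNc : IsClosed (N : Set L2) := B.isClosed_ker
  have : CompleteSpace N := hNc.completeSpace_coe
  have hNm : ∀ x, x ∈ N ↔ B x = 0 := fun x => Iff.rfl
  let P : L2 →L[ℂ] L2 := 1 - N.starProjection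
  have hP : ∀ x, P x = x - N.starProjection x := fun x => rfl
  have hPN : ∀ x, P x ∈ Nᗮ := fun x => by
    rw [hP]
    exact N.sub_starProjection_mem_orthogonal x
  have hBP : ∀ x, B (P x) = B x := by
    intro x
    have h1 : B (N.starProjection x) = 0 := (hNm _).1 (N.starProjection_apply_mem x)
    rw [hP, map_sub, h1, sub_zero]
  let G : Submodule ℂ L2 := (LinearMap.range ((P ∘L A : F →L[ℂ] L2) :
    F →ₗ[ℂ] L2)).topologicalClosure
  have hGc : IsClosed (G : Set L2) := Submodule.isClosed_topologicalClosure _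
  have : CompleteSpace G := hGc.completeSpace_coe
  have : SecondCountableTopology L2 := UniformSpace.secondCountable_of_separable L2
  have hGN : G ≤ Nᗮ := by
    refine Submodule.topologicalClosure_minimal _ ?_ N.isClosed_orthogonal
    rintro _ ⟨x, rfl⟩
    exact hPN _
  have hmem : ∀ x, P (A x) ∈ G := fun x => Submodule.le_topologicalClosure _ ⟨x, rfl⟩
  let A' : F →L[ℂ] G := (P ∘L A).codRestrict G hmem
  let B' : G →L[ℂ] F := B ∘L G.subtypeL
  have hA' : ∀ x, ((A' x : G) : L2) = P (A x) := fun x => rfl
  have hBA : B' ∘L A' = B ∘L A := by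
    ext x
    change B (P (A x)) = B (A x)
    rw [hBP]
  have hB'i : Function.Injective B' := by
    rw [injective_iff_map_eq_zero]
    intro g hg
    have h1 : (g : L2) ∈ N := hg
    have h2 : (g : L2) ∈ Nᗮ := hGN g.2
    have h3 : (g : L2) ∈ N ⊓ Nᗮ := ⟨h1, h2⟩
    rw [N.inf_orthogonal_eq_bot, Submodule.mem_bot] at h3
    exact Subtype.ext h3
  have hA'd : DenseRange A' := by
    intro g
    rw [closure_subtype]
    have h1 : ((↑) : G → L2) '' Set.range A' = Set.range (P ∘L A : F →L[ℂ] L2) := by
      ext y
      constructor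
      · rintro ⟨_, ⟨x, rfl⟩, rfl⟩
        exact ⟨x, rfl⟩
      · rintro ⟨x, rfl⟩
        exact ⟨A' x, ⟨x, rfl⟩, rfl⟩
    rw [h1]
    have h2 : (g : L2) ∈ (G : Set L2) := g.2
    rw [Submodule.topologicalClosure_coe] at h2
    exact h2
  have hA'i : Function.Injective A' := by
    intro x y hxy
    apply hinj
    rw [← hBA]
    change B' (A' x) = B' (A' y)
    rw [hxy]
  have hG : NoInv (A' ∘L B') := NoInv.swap hB'i hA'd (by rw [hBA]; exact h)
  have hGfd : ¬ FiniteDimensional ℂ G := fun hfd =>
    hF (FiniteDimensional.of_injective (A' : F →ₗ[ℂ] G) hA'i)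
  obtain ⟨e⟩ := nonempty_iso (W := G) hGfd
  exact ⟨_, hG.conj (e.symm : L2 →L[ℂ] G) (e : G →L[ℂ] L2) (fun x => e.symm_apply_apply x)
    (fun x => e.apply_symm_apply x)⟩

theorem not_fd_of_contains {F X : Type} [NormedAddCommGroup F] [NormedSpace ℂ F]
    [NormedAddCommGroup X] [NormedSpace ℂ X] (h : ContainsComplemented F X)
    (hX : ¬ FiniteDimensional ℂ X) : ¬ FiniteDimensional ℂ F := by
  obtain ⟨i, q, hqi⟩ := h
  intro hfd
  have hinj : Function.Injective (i : X →ₗ[ℂ] F) := fun x y hxy => by
    have h1 : i x = i y := hxy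
    rw [← hqi x, ← hqi y, h1]
  exact hX (FiniteDimensional.of_injective (i : X →ₗ[ℂ] F) hinj)

/-- **Transfer to larger spaces.** (1) Let `X` be an infinite-dimensional Banach space which embeds
into an `ℓ_p`-sum of finite-dimensional spaces, `1 < p < ∞`, or is reflexive with the property
`SubsequencesComplemented`, let `F` be a separable Banach space with a complemented subspace
isomorphic to `X`, and let `a n > 0`. All operators on `X` have nontrivial closed invariant
subspaces if and only if all operators on `F` have which factor through `X` (with injective factors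
with dense ranges), and if and only if those have which are also of the form `(R ⊕ 0) + K`,
`F = W ⊕ Z`, `dim Z = ∞`, `K` a series of operators of rank one with norms at most `a n`. (2) If `F`
is isomorphic to `L^p[0,1]`, `1 < p < ∞`, or contains a complemented subspace isomorphic to `ℓ²`,
then all operators on `ℓ²` have nontrivial closed invariant subspaces if and only if all operators
on `F` have which factor through `ℓ²`. -/
theorem result :
    (∀ (X : Type) [NormedAddCommGroup X] [NormedSpace ℂ X] [CompleteSpace X],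
      ¬ FiniteDimensional ℂ X → (EmbedsInSum X ∨ (Reflexive X ∧ SubsequencesComplemented X)) →
      ∀ (F : Type) [NormedAddCommGroup F] [NormedSpace ℂ F] [CompleteSpace F]
        [TopologicalSpace.SeparableSpace F], ContainsComplemented F X →
        ∀ a : ℕ → ℝ, (∀ n, 0 < a n) →
          (AllHaveInvariant X ↔ ∀ S : F →L[ℂ] F, FactorsDensely X S → HasInvariant S) ∧
          (AllHaveInvariant X ↔ ∀ S : F →L[ℂ] F, FactorsDensely X S → SumForm a S →
            HasInvariant S)) ∧
    ∀ (F : Type) [NormedAddCommGroup F] [NormedSpace ℂ F] [CompleteSpace F]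
      [TopologicalSpace.SeparableSpace F],
      (IsomorphicToLp F ∨ ContainsComplemented F (lp (fun _ : ℕ => ℂ) 2)) →
      (AllHaveInvariant (lp (fun _ : ℕ => ℂ) 2) ↔
        ∀ S : F →L[ℂ] F, Factors (lp (fun _ : ℕ => ℂ) 2) S → HasInvariant S) := by
  have key : ∀ (X : Type) [NormedAddCommGroup X] [NormedSpace ℂ X] [CompleteSpace X],
      ¬ FiniteDimensional ℂ X → (EmbedsInSum X ∨ (Reflexive X ∧ SubsequencesComplemented X)) →
      ∀ (F : Type) [NormedAddCommGroup F] [NormedSpace ℂ F] [CompleteSpace F]
        [TopologicalSpace.SeparableSpace F], ContainsComplemented F X →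
        ∀ a : ℕ → ℝ, (∀ n, 0 < a n) →
          (∀ S : F →L[ℂ] F, FactorsDensely X S → SumForm a S → HasInvariant S) →
          AllHaveInvariant X := by
    intro X _ _ _ hX hXc F _ _ _ _ hF a ha h T
    by_contra hcon
    have hrc : Reflexive X ∧ SubsequencesComplemented X := hXc.elim of_embeds id
    obtain ⟨S, hS1, hS2, hS3⟩ := exists_factor hX hrc.1 hrc.2 hF a ha (noInv_of_not hcon)
    exact not_of_noInv hS3 (h S hS2 hS1)
  constructor
  · intro X _ _ _ hX hXc F _ _ _ _ hF a ha
    have hFfd : ¬ FiniteDimensional ℂ F := not_fd_of_contains hF hX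
    have h1 : AllHaveInvariant X → ∀ S : F →L[ℂ] F, FactorsDensely X S → HasInvariant S := by
      rintro h S ⟨A, B, hA1, hA2, hB1, hB2, rfl⟩
      by_contra hcon
      exact not_of_noInv (NoInv.swap hB1 hA2 (noInv_of_not hcon)) (h (A ∘L B))
    exact ⟨⟨h1, fun h => key X hX hXc F hF a ha (fun S hS _ => h S hS)⟩,
      ⟨fun h S hS _ => h1 h S hS, key X hX hXc F hF a ha⟩⟩
  · intro F _ _ _ _ hF
    have hF' : ContainsComplemented F L2 := by
      rcases hF with ⟨p, i1, hp, hp', ⟨e⟩⟩ | hF
      · obtain ⟨i, q, hqi⟩ := exists_L2_in_Lp p hp hp'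
        refine ⟨(e.symm : Lp ℂ p (volume.restrict (Set.Icc (0 : ℝ) 1)) →L[ℂ] F) ∘L i,
          q ∘L (e : F →L[ℂ] Lp ℂ p (volume.restrict (Set.Icc (0 : ℝ) 1))), fun x => ?_⟩
        have h1 : e (e.symm (i x)) = i x := e.apply_symm_apply (i x)
        exact (congrArg q h1).trans (hqi x)
      · exact hF
    have hFfd : ¬ FiniteDimensional ℂ F := not_fd_of_contains hF' L2_not_fd
    constructor
    · rintro h S ⟨A, B, rfl⟩
      by_contra hcon
      obtain ⟨T, hT⟩ := exists_noInv_of_factors hFfd A B (noInv_of_not hcon)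
      exact not_of_noInv hT (h T)
    · intro h
      refine key L2 L2_not_fd (Or.inr ⟨reflexive_L2, cus_L2⟩) F hF' (fun _ => 1)
        (fun _ => one_pos) (fun S hS _ => ?_)
      obtain ⟨A, B, -, -, -, -, rfl⟩ := hS
      exact h _ ⟨A, B, rfl⟩

end Pool.Agent.Results.MP_f981b0_an.LargerSpaces
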