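import Pool.Agent.H933.EP.Ban
import Pool.Agent.H933.EP.Hth
import Pool.Agent.H933.LL.WChain
import Pool.Agent.H738.LL.Wlog
import Pool.Agent.H696.LL.Walg
import Pool.Agent.H348.LL.Sob
import Pool.Agent.H933.TI.Hol

/-!
# Operators whose resolvents grow slower than a double exponential in the mean, and compact
perturbations of normal operators with thin spectra

A point `l` of the plane is good for the bounded operator `T` on a complex Banach space if near `l` the spectrum
of `T` is a null set and `log⁺ log⁺ ‖(z - T)⁻¹‖ ≤ a(z) + b(z)`, where `a ^ q` is integrable with respect to the area for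
some `q > 1` and `b` has thin level sets (for example `b` is a nonincreasing integrable function of the vertical
distance from a continuous graph: the condition of Levinson). There is no condition on the shape of the
spectrum.

* (general theorem) If one point of the spectrum is good and the spectrum has another point, `T` has a
  nontrivial hyperinvariant subspace; if infinitely many are good, there is an infinite chain of them; if
  all are good, `T` is decomposable. At a good point of the spectrum there are operators with nonzero square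
  in the bicommutant which are localized there, at every scale.
* (compact perturbations of normal operators) Let `N` be normal and `K` compact on a Hilbert space. A point `l` is
  favourable if `s_n(K) = O((log n) ^ (-1/η))` for some `η > 0` (every `η` for the Schatten classes) and the spectrum of
  `N` is accessible at `l` with the exponent `η` (a condition on the quasi-hyperbolic metric of the complement), or if near
  `l` the spectrum of `N` lies on the graph of a Hölder function of order `α > 1/2` and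
  `∑ s_n(K) ^ (2 α - 1) / n < ∞` (for Lipschitz curves, `α = 1`, the Macaev ideal). Every operator similar to the
  restriction of `N + K` to a closed invariant subspace (for instance `N + K`), whose spectrum contains a
  favourable point, is scalar or has a nontrivial hyperinvariant subspace. If all points of the spectrum of `N`
  are favourable and the spectrum of `N + K` has no interior, `N + K` is decomposable.
* (couplings) If the spectrum of `N` is only thin in a disc `D`, `∫_D dist(z, σ(N)) ^ (-s) dA < ∞` for some `s > η` (for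
  instance of upper box dimension less than `2 - η`), then for all couplings `κ` outside a set of logarithmic capacity
  zero the spectrum of `N + κ K` misses `D`, or `N + κ K` is scalar or has a nontrivial hyperinvariant subspace; if this is so
  for all discs, `N + κ K` is decomposable.
* (Banach spaces) The same for `S + K`, if the resolvent of `S` has polynomial growth of order `A` off a closed set `E` and `K` is
  approximated up to `δ` by operators of rank `exp (C δ ^ (-θ))`, with `η = A θ`.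
* (Toeplitz operators) Toeplitz operators on a Hilbert space with Hölder continuous symbols of order greater than
  `1/2`, or of any positive order if the image is thin, and their analogues on Banach spaces, have infinite
  chains.

Proof of the general theorem. By Domar's theorem on families of subharmonic functions the weighted
Bergman space of the disc with the weight `(1 + ‖(z - T)⁻¹‖) ^ (-2)` does not contain
`1/(z - l)` in the closure of the holomorphic functions; its orthogonal complement gives a density `h` on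
the disc around `l` such that `h` annihilates the holomorphic functions and
`B = ∫ h(z) (z - T)⁻¹ dA(z)` converges; a density on an annulus represents the contour integral. For the
perturbations, the determinant of `z - T` with respect to a finite rank approximation of `K` is estimated
from below along chains of discs by Harnack's inequality and Jensen's formula (individual perturbations)
or on the average over the couplings; a part `A` of `N + K` is made invertible at the base points of the chains by a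
finite rank correction of `K` which vanishes on the subspace.

The library has the case of a single logarithm (`LogIntegrableNests`), spectra on rectifiable curves and
`s_n(K) = O(n ^ (-ε))`, and generic couplings for `C_p`, `p ≤ 2`.
-/

set_option autoImplicit false

open MeasureTheory Metric
open scoped Real InnerProductSpace NNReal ENNReal

namespace Pool.Agent.Results.MP_f981b0_an.LogLogResolvents

section Defs

variable {X : Type} [NormedAddCommGroup X] [NormedSpace ℂ X]

/-- `V` is a closed subspace which is invariant under every bounded operator commuting with `T` (in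
particular under `T`). -/
def Hyperinvariant (T : X →L[ℂ] X) (V : Submodule ℂ X) : Prop :=
  IsClosed (V : Set X) ∧ ∀ Q : X →L[ℂ] X, Q * T = T * Q → ∀ x ∈ V, Q x ∈ V

/-- `T` has a nontrivial hyperinvariant subspace. -/
def HasHyperinvariant (T : X →L[ℂ] X) : Prop :=
  ∃ V : Submodule ℂ X, Hyperinvariant T V ∧ V ≠ ⊥ ∧ V ≠ ⊤

/-- `T` is a multiple of the identity or has a nontrivial hyperinvariant subspace. -/
def ScalarOrHyperinvariant (T : X →L[ℂ] X) : Prop :=
  (∃ c : ℂ, T = c • (1 : X →L[ℂ] X)) ∨ HasHyperinvariant T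

/-- `T` has an infinite strictly increasing or strictly decreasing sequence of hyperinvariant
subspaces. -/
def InfiniteChain (T : X →L[ℂ] X) : Prop :=
  ∃ V : ℕ → Submodule ℂ X, (∀ n, Hyperinvariant T (V n)) ∧ (StrictMono V ∨ StrictAnti V)

/-- `Y` is hyperinvariant and the spectrum of the restriction of `T` to `Y` lies in `U`: for `z ∉ U` the
operator `z - T` maps `Y` bijectively onto `Y`. -/
def SpectralIn (T : X →L[ℂ] X) (Y : Submodule ℂ X) (U : Set ℂ) : Prop :=
  IsClosed (Y : Set X) ∧ (∀ Q : X →L[ℂ] X, Q * T = T * Q → ∀ x ∈ Y, Q x ∈ Y) ∧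
    ∀ z ∉ U, ∀ y ∈ Y, ∃! x, x ∈ Y ∧ z • x - T x = y

/-- `T` is decomposable, with hyperinvariant spectral subspaces: for every cover of the plane by two open
sets `U₁`, `U₂` the space is the sum of hyperinvariant subspaces `Y₁`, `Y₂` on which the spectrum of `T`
lies in `U₁` and in `U₂`. -/
def Decomposable (T : X →L[ℂ] X) : Prop :=
  ∀ U₁ U₂ : Set ℂ, IsOpen U₁ → IsOpen U₂ → U₁ ∪ U₂ = Set.univ →
    ∃ Y₁ Y₂ : Submodule ℂ X, SpectralIn T Y₁ U₁ ∧ SpectralIn T Y₂ U₂ ∧ Y₁ ⊔ Y₂ = ⊤

/-- The level sets of `b` in `U` are thin: the part of `U` where `b ≥ k` fills at most the area `ρ ^ 2 / 8` of the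
discs of radius `ρ ≥ r k`, where `∑ r k < ∞`. -/
def ThinLevels (b : ℂ → ℝ) (U : Set ℂ) : Prop := ∃ r : ℕ → ℝ, (∀ k, 0 ≤ r k) ∧ Summable r ∧
  ∀ (k : ℕ) (z : ℂ) (ρ : ℝ), r k ≤ ρ → 0 < ρ →
    volume {w : ℂ | w ∈ ball z ρ ∧ w ∈ U ∧ (k : ℝ) ≤ b w} ≤ ENNReal.ofReal (ρ ^ 2 / 8)

/-- The point `l` is good for `T`: near `l` the spectrum of `T` is a null set and
`log⁺ log⁺ ‖(z - T)⁻¹‖ ≤ a z + b z`, `a ≥ 0`, `a ^ q` integrable with respect to the area for some `q > 1`, `b` with thin
level sets. -/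
def GoodPoint (T : X →L[ℂ] X) (l : ℂ) : Prop := ∃ (q r : ℝ) (a b : ℂ → ℝ), 1 < q ∧ 0 < r ∧
  volume (spectrum ℂ T ∩ ball l r) = 0 ∧ (∀ z, 0 ≤ a z) ∧
  IntegrableOn (fun z => a z ^ q) (ball l r) ∧ ThinLevels b (ball l r) ∧
  ∀ᵐ z ∂(volume.restrict (ball l r)), Real.posLog (Real.posLog ‖resolvent T z‖) ≤ a z + b z

/-- The resolvent of `S` is of polynomial growth of order `A` off the set `E`. -/
def GrowthOff (S : X →L[ℂ] X) (E : Set ℂ) (A : ℝ) : Prop :=
  ∃ C : ℝ, ∀ z : ℂ, z ∉ E → z ∈ resolventSet ℂ S ∧ ‖resolvent S z‖ ≤ C * (1 + (infDist z E) ^ (-A))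

/-- `K` is approximated up to `δ` by sums of at most `exp (C δ ^ (-θ))` operators of rank one with bounded
factors. -/
def LogApprox (K : X →L[ℂ] X) (θ : ℝ) : Prop :=
  ∃ C : ℝ, ∀ δ : ℝ, 0 < δ → δ ≤ 1 → ∃ (n : ℕ) (φ : Fin n → (X →L[ℂ] ℂ)) (f : Fin n → X),
    (n : ℝ) ≤ Real.exp (C * δ ^ (-θ)) ∧ (∀ i, ‖φ i‖ ≤ C ∧ ‖f i‖ ≤ C) ∧
    ‖K - ∑ i, (φ i).smulRight (f i)‖ ≤ δ

/-- `s_n(K) = O((log n) ^ (-1/η))`: the operator `K` has a singular value decomposition
`K x = ∑ s i ⟪e i, x⟫ f i` with orthonormal families `e`, `f`, `s i ≥ 0`, and at most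
`exp (C δ ^ (-η))` of the numbers `s i` are greater than `δ`, for `0 < δ ≤ 1`. -/
def SingularDecay {H : Type} [NormedAddCommGroup H] [InnerProductSpace ℂ H] (K : H →L[ℂ] H)
    (η : ℝ) : Prop :=
  ∃ (ι : Type) (e f : ι → H) (s : ι → ℝ), Orthonormal ℂ e ∧ Orthonormal ℂ f ∧ (∀ i, 0 ≤ s i) ∧
    (∃ C : ℝ, ∀ δ : ℝ, 0 < δ → δ ≤ 1 → {i | δ < s i}.Finite ∧
      ({i | δ < s i}.ncard : ℝ) ≤ Real.exp (C * δ ^ (-η))) ∧
    ∀ x, HasSum (fun i => ((s i : ℂ) * ⟪e i, x⟫_ℂ) • f i) (K x)

/-- `∑ s_n(K) ^ β / n < ∞` (the Macaev ideal for `β = 1`), in terms of the number `n(δ)` of singular values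
greater than `δ`: `∫_0^1 δ ^ (β - 1) log (1 + n(δ)) dδ < ∞`. -/
def MacaevClass {H : Type} [NormedAddCommGroup H] [InnerProductSpace ℂ H] (K : H →L[ℂ] H) (β : ℝ) :
    Prop :=
  ∃ (ι : Type) (e f : ι → H) (s : ι → ℝ), Orthonormal ℂ e ∧ Orthonormal ℂ f ∧ (∀ i, 0 ≤ s i) ∧
    (∀ δ : ℝ, 0 < δ → {i | δ < s i}.Finite) ∧
    IntegrableOn (fun δ : ℝ => δ ^ (β - 1) * Real.log (1 + ({i | δ < s i}.ncard : ℝ))) (Set.Ioc 0 1) ∧
    ∀ x, HasSum (fun i => ((s i : ℂ) * ⟪e i, x⟫_ℂ) • f i) (K x)

/-- `K` is in the Schatten class `C_p`. -/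
def Schatten {H : Type} [NormedAddCommGroup H] [InnerProductSpace ℂ H] (K : H →L[ℂ] H) (p : ℝ) :
    Prop :=
  ∃ (ι : Type) (e f : ι → H) (s : ι → ℝ), Orthonormal ℂ e ∧ Orthonormal ℂ f ∧ (∀ i, 0 ≤ s i) ∧
    (Summable fun i => s i ^ p) ∧ ∀ x, HasSum (fun i => ((s i : ℂ) * ⟪e i, x⟫_ℂ) • f i) (K x)

/-- Near `l` the set `E` lies on the graph of a Hölder continuous function `φ` of order `α`, after a rotation
`z ↦ u z`. -/
def OnHoelderGraph (E : Set ℂ) (l : ℂ) (α : ℝ) : Prop := ∃ (φ : ℝ → ℝ) (L R : ℝ) (u : ℂ),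
  (∀ s t : ℝ, |φ s - φ t| ≤ L * |s - t| ^ α) ∧ ‖u‖ = 1 ∧ 0 < R ∧
  ∀ z ∈ E, z ∈ ball l R → (u * z).im = φ (u * z).re

/-- The set `E` is accessible at `l` with the exponent `η`: it is contained in a closed set `E'`, which
is null near `l`, and every point `z` near `l` off `E'` is joined to one of finitely many points off `E'` by a
chain `c 0, ..., c N` with steps of length at most `dist(c j, E') / 4` and with total cost
`∑ (min 1 dist(c j, E')) ^ (-η)` at most `g z`, where `|g| ^ q` is integrable near `l` for some `q > 1`. -/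
def Accessible (E : Set ℂ) (l : ℂ) (η : ℝ) : Prop := ∃ (E' : Set ℂ) (ρ q : ℝ) (g : ℂ → ℝ)
  (B : Finset ℂ), IsClosed E' ∧ E ⊆ E' ∧ 0 < ρ ∧ 1 < q ∧ volume (E' ∩ ball l ρ) = 0 ∧
  Measurable g ∧ IntegrableOn (fun z : ℂ => |g z| ^ q) (ball l ρ) ∧ (∀ b ∈ B, b ∉ E') ∧
  ∀ z ∈ ball l ρ, z ∉ E' → ∃ (N : ℕ) (c : ℕ → ℂ), c 0 ∈ B ∧ c N = z ∧
    (∀ j < N, ‖c (j + 1) - c j‖ ≤ infDist (c j) E' / 4) ∧
    ∑ j ∈ Finset.range (N + 1), (min 1 (infDist (c j) E')) ^ (-η) ≤ g z

/-- The point `l` of `E` is favourable for `K`. -/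
def Favourable {H : Type} [NormedAddCommGroup H] [InnerProductSpace ℂ H] (E : Set ℂ)
    (K : H →L[ℂ] H) (l : ℂ) : Prop :=
  (∃ η : ℝ, 0 < η ∧ SingularDecay K η ∧ Accessible E l η) ∨
  ∃ α : ℝ, 1 / 2 < α ∧ α ≤ 1 ∧ MacaevClass K (2 * α - 1) ∧ OnHoelderGraph E l α

/-- `A` is similar to the restriction of `C` to a closed invariant subspace. -/
def PartOf {H V : Type} [NormedAddCommGroup H] [InnerProductSpace ℂ H] [NormedAddCommGroup V]
    [InnerProductSpace ℂ V] (A : V →L[ℂ] V) (C : H →L[ℂ] H) : Prop :=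
  ∃ j : V →L[ℂ] H, (∃ c : ℝ, 0 < c ∧ ∀ x, c * ‖x‖ ≤ ‖j x‖) ∧ C.comp j = j.comp A

/-- `E` is a null set in the disc `D` and `dist(z, E) ^ (-s)` is integrable over `D`. -/
def ThinIn (E D : Set ℂ) (s : ℝ) : Prop :=
  volume (E ∩ D) = 0 ∧ IntegrableOn (fun z : ℂ => (infDist z E) ^ (-s)) D

/-- The set `S` has logarithmic capacity zero: it is a null set for every finite measure without
atoms, carried by a disc, with bounded logarithmic potential. -/
def CapacityZero (S : Set ℂ) : Prop := ∀ μ : Measure ℂ, IsFiniteMeasure μ →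
  (∃ r : ℝ, μ (ball (0 : ℂ) r)ᶜ = 0) → (∀ a : ℂ, μ {a} = 0) →
  (∃ A : ℝ, ∀ a : ℂ, ∫⁻ κ, ENNReal.ofReal (Real.posLog ‖κ - a‖⁻¹) ∂μ ≤ ENNReal.ofReal A) → μ S = 0

/-- `E` is a nonempty closed null set and `(log⁺ (1 / dist(z, E))) ^ p` is integrable over discs. -/
def LogThin (E : Set ℂ) (p : ℝ) : Prop :=
  IsClosed E ∧ E.Nonempty ∧ volume E = 0 ∧
    ∀ r : ℝ, IntegrableOn (fun z : ℂ => (Real.posLog (infDist z E)⁻¹) ^ p) (ball (0 : ℂ) r)

end Defs

/-- The general theorem. -/
def General : Prop :=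
  ∀ (X : Type) [NormedAddCommGroup X] [NormedSpace ℂ X] [CompleteSpace X] (T : X →L[ℂ] X),
    (∀ l ∈ spectrum ℂ T, GoodPoint T l → (spectrum ℂ T).Nontrivial → HasHyperinvariant T) ∧
    ({l : ℂ | l ∈ spectrum ℂ T ∧ GoodPoint T l}.Infinite → InfiniteChain T) ∧
    ((∀ l ∈ spectrum ℂ T, GoodPoint T l) → Decomposable T) ∧
    ∀ l ∈ spectrum ℂ T, GoodPoint T l → ∀ ε : ℝ, 0 < ε → ∃ B : X →L[ℂ] X,
      (∀ Q : X →L[ℂ] X, Q * T = T * Q → Q * B = B * Q) ∧ B * B ≠ 0 ∧
      ∃ C : ℝ, ∀ n : ℕ, ‖(T - l • (1 : X →L[ℂ] X)) ^ n * B‖ ≤ C * ε ^ n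

/-- Individual compact perturbations of normal operators. -/
def Individual : Prop :=
  ∀ (H : Type) [NormedAddCommGroup H] [InnerProductSpace ℂ H] [CompleteSpace H]
    (N K : H →L[ℂ] H), IsStarNormal N →
    (∀ l ∈ spectrum ℂ (N + K), Favourable (spectrum ℂ N) K l → ScalarOrHyperinvariant (N + K)) ∧
    (∀ (V : Type) [NormedAddCommGroup V] [InnerProductSpace ℂ V] [CompleteSpace V]
      (A : V →L[ℂ] V), PartOf A (N + K) → ∀ l ∈ spectrum ℂ A, Favourable (spectrum ℂ N) K l →
      ScalarOrHyperinvariant A) ∧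
    ((∀ l ∈ spectrum ℂ N, Favourable (spectrum ℂ N) K l) →
      interior (spectrum ℂ (N + K)) = ∅ → Decomposable (N + K))

/-- Perturbations on Banach spaces, individual ones and couplings outside a set of capacity zero. -/
def Banach : Prop :=
  ∀ (X : Type) [NormedAddCommGroup X] [NormedSpace ℂ X] [CompleteSpace X] (S K : X →L[ℂ] X)
    (E : Set ℂ) (A θ : ℝ), 0 < A → 0 < θ → IsClosed E → GrowthOff S E A → LogApprox K θ →
    (∀ l ∈ spectrum ℂ (S + K), Accessible E l (A * θ) → (spectrum ℂ (S + K)).Nontrivial →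
      HasHyperinvariant (S + K)) ∧
    ((∀ l ∈ E, Accessible E l (A * θ)) → interior (spectrum ℂ (S + K)) = ∅ →
      Decomposable (S + K)) ∧
    ∀ s : ℝ, A * θ < s →
      (∀ (l : ℂ) (R : ℝ), ThinIn E (ball l R) s →
        CapacityZero {κ : ℂ | (spectrum ℂ (S + κ • K) ∩ ball l R).Nonempty ∧
          (spectrum ℂ (S + κ • K)).Nontrivial ∧ ¬ HasHyperinvariant (S + κ • K)}) ∧
      ((∀ R : ℝ, ThinIn E (ball (0 : ℂ) R) s) → CapacityZero {κ : ℂ | ¬ Decomposable (S + κ • K)})

/-- Couplings outside a set of capacity zero. -/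
def Couplings : Prop :=
  ∀ (H : Type) [NormedAddCommGroup H] [InnerProductSpace ℂ H] [CompleteSpace H]
    (N K : H →L[ℂ] H) (η s : ℝ), 0 < η → η < s → IsStarNormal N → SingularDecay K η →
    (∀ (l : ℂ) (R : ℝ), ThinIn (spectrum ℂ N) (ball l R) s →
      CapacityZero {κ : ℂ | (spectrum ℂ (N + κ • K) ∩ ball l R).Nonempty ∧
        ¬ ScalarOrHyperinvariant (N + κ • K)}) ∧
    ((∀ R : ℝ, ThinIn (spectrum ℂ N) (ball (0 : ℂ) R) s) →
      CapacityZero {κ : ℂ | ¬ Decomposable (N + κ • K)})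

/-- Complements: the condition of Levinson; Hölder graphs are accessible; classes of compact operators; sets of small
upper box dimension are thin; sets of capacity zero are null for the area and on the real line; the
accumulation points of the spectrum of `N` belong to the spectrum of `N + K`. -/
def Complements : Prop :=
  (∀ φ : ℝ → ℝ, Continuous φ → ∀ (u : ℂ), ‖u‖ = 1 → ∀ m : ℝ → ℝ, (∀ s, 0 ≤ m s) →
    (∀ s t : ℝ, 0 < s → s ≤ t → m t ≤ m s) → IntegrableOn m (Set.Ioc 0 1) →
    ∀ (l : ℂ) (R : ℝ), 0 < R → ThinLevels (fun z => m |(u * z).im - φ (u * z).re|) (ball l R)) ∧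
  (∀ (E : Set ℂ) (l : ℂ) (η α : ℝ), 0 < η → 1 / 2 < α → α ≤ 1 → η < 2 * α - 1 → IsClosed E →
    E.Nonempty → OnHoelderGraph E l α → Accessible E l η) ∧
  (∀ (H : Type) [NormedAddCommGroup H] [InnerProductSpace ℂ H] [CompleteSpace H]
    (K : H →L[ℂ] H) (p η : ℝ), 0 < p → 0 < η → Schatten K p → SingularDecay K η) ∧
  (∀ (H : Type) [NormedAddCommGroup H] [InnerProductSpace ℂ H] [CompleteSpace H]
    (K : H →L[ℂ] H) (η β : ℝ), 0 < η → η < β → SingularDecay K η → MacaevClass K β) ∧
  (∀ (E : Set ℂ) (C ε s : ℝ), 0 < s → s < ε →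
    (∀ δ : ℝ, 0 < δ → δ ≤ 1 → volume {z : ℂ | infDist z E ≤ δ} ≤ ENNReal.ofReal (C * δ ^ ε)) →
    ∀ R : ℝ, ThinIn E (ball (0 : ℂ) R) s) ∧
  (∀ S : Set ℂ, CapacityZero S → volume S = 0 ∧ volume {t : ℝ | (t : ℂ) ∈ S} = 0) ∧
  ∀ (H : Type) [NormedAddCommGroup H] [InnerProductSpace ℂ H] [CompleteSpace H]
    (N K : H →L[ℂ] H) (l : ℂ), IsStarNormal N → IsCompactOperator K →
    (∀ ε : ℝ, 0 < ε → ∃ μ ∈ spectrum ℂ N, μ ≠ l ∧ ‖μ - l‖ < ε) → l ∈ spectrum ℂ (N + K)

/-- Toeplitz operators with Hölder continuous symbols on a Hilbert space: of order `α > 1/2`, or of any order with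
thin image. -/
def ToeplitzHilbert : Prop :=
  ∀ (H : Type) [NormedAddCommGroup H] [InnerProductSpace ℂ H] [CompleteSpace H]
    (e : HilbertBasis ℕ ℂ H) (φ : UnitAddCircle → ℂ) (L α : ℝ≥0), 0 < α → HolderWith L α φ →
    (∃ s t : UnitAddCircle, φ s ≠ φ t) →
    ((1 / 2 : ℝ) < α ∨ ∃ p : ℝ, 1 < p ∧ LogThin (Set.range φ) p) →
    ∀ T : H →L[ℂ] H, (∀ i j : ℕ, ⟪e i, T (e j)⟫_ℂ = fourierCoeff φ ((i : ℤ) - (j : ℤ))) →
    InfiniteChain T

/-- The coefficients of a function with `∑ (1 + |n|) ^ δ |c n| < ∞`, `δ > 0`, and thin image. -/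
def WienerSymbol (c : ℤ → ℂ) : Prop :=
  (∃ δ : ℝ, 0 < δ ∧ Summable fun n : ℤ => (1 + |(n : ℝ)|) ^ δ * ‖c n‖) ∧
    ∃ p : ℝ, 1 < p ∧
      LogThin (Set.range fun t : UnitAddCircle => ∑' n : ℤ, c n • (fourier n t : ℂ)) p

/-- The coefficients of a function in the Sobolev space of some order greater than one half of the
circle. -/
def SobolevSymbol (c : ℤ → ℂ) : Prop :=
  ∃ r : ℝ, 1 / 2 < r ∧ Summable fun n : ℤ => |(n : ℝ)| ^ (2 * r) * ‖c n‖ ^ 2

/-- Toeplitz operators on Banach spaces. -/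
def ToeplitzBanach : Prop :=
  ∀ (X : Type) [NormedAddCommGroup X] [NormedSpace ℂ X] [CompleteSpace X] (S R : X →L[ℂ] X)
    (K : ℝ), R * S = 1 → S * R ≠ 1 → (∀ n : ℕ, ‖S ^ n‖ ≤ K) → (∀ n : ℕ, ‖R ^ n‖ ≤ K) →
    ∀ (c : ℤ → ℂ), (∃ n : ℤ, n ≠ 0 ∧ c n ≠ 0) → (WienerSymbol c ∨ SobolevSymbol c) →
    InfiniteChain (∑' n : ℕ, c n • S ^ n + ∑' n : ℕ, c (-((n : ℤ) + 1)) • R ^ (n + 1))

open Pool.Agent.H933

lemma logThin_of {E : Set ℂ} {p : ℝ} (h : LogThin E p) : LL.LogThin E p := ⟨h.2.2.1, h.2.2.2⟩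

theorem sep : LL.P_sep := Pool.Agent.H670.LL.p_sep (Pool.Agent.H784.LL.p_cut LL.domar)

theorem good_dom {X : Type} [NormedAddCommGroup X] [NormedSpace ℂ X] [CompleteSpace X]
    {T : X →L[ℂ] X} {l : ℂ} (h : GoodPoint T l) : EP.DomAt T l := by
  obtain ⟨q, r, a, b, h1, h2, h3, h4, h5, h6, h7⟩ := h
  exact EP.domAt_of EP.domar2 T l q r a b h1 h2 h3 h4 h5 h6 h7

theorem fav_of {H : Type} [NormedAddCommGroup H] [InnerProductSpace ℂ H]
    {K : H →L[ℂ] H} {E : Set ℂ} {l : ℂ} (hne : E.Nonempty) (h : Favourable E K l) :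
    EP.Fav E K l := by
  rcases h with ⟨η, h1, h2, h3⟩ | h
  · exact Or.inl ⟨η, h1, h2, LL.acc_of_accessible h1 hne h3⟩
  · exact Or.inr h

theorem general : General := by
  intro X _ _ _ T
  refine ⟨fun l hl hg hn => EP.hyper_one EP.sep2 T l hl (good_dom hg) hn, fun h => ?_, fun h =>
    EP.dec_at Pool.Agent.H962.EP.p_glue2 Pool.Agent.H980.EP.p_clos2 EP.split2 T
      (fun l hl => good_dom (h l hl)), fun l hl hg ε hε =>
    EP.localized EP.adm2 T l hl (good_dom hg) ε hε⟩
  obtain ⟨V, h1, h2⟩ := EP.infinite_chain EP.adm2 T (h.mono fun l hl => ⟨hl.1, good_dom hl.2⟩)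
  exact ⟨V, h1, Or.inr h2⟩

theorem individual : Individual := by
  intro H _ _ _ N K hN
  have hne : ∀ {V : Type} [NormedAddCommGroup V] [InnerProductSpace ℂ V] [CompleteSpace V]
      {A : V →L[ℂ] V} {l : ℂ} {j : V →L[ℂ] H}, l ∈ spectrum ℂ A →
      (∃ c : ℝ, 0 < c ∧ ∀ x, c * ‖x‖ ≤ ‖j x‖) → (spectrum ℂ N).Nonempty := by
    intro V _ _ _ A l j hl hj
    have hV := EP.nontrivial_of_spec hl
    obtain ⟨c, hc, hj⟩ := hj
    obtain ⟨x, hx⟩ := exists_ne (0 : V)
    have : j x ≠ 0 := by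
      intro h0
      have h1 := hj x
      rw [h0, norm_zero] at h1
      have : 0 < c * ‖x‖ := mul_pos hc (norm_pos_iff.2 hx)
      linarith
    have hH : Nontrivial H := ⟨⟨j x, 0, this⟩⟩
    exact spectrum.nonempty N
  refine ⟨fun l hl hG => ?_, fun V _ _ _ A hA l hl hG => ?_, fun hG hd => ?_⟩
  · have h1 : (spectrum ℂ N).Nonempty :=
      hne (j := ContinuousLinearMap.id ℂ H) hl ⟨1, one_pos, fun x => by rw [one_mul]; exact le_rfl⟩
    exact EP.individual EP.domar2 EP.lev EP.gch EP.rateM EP.sep2 N K hN l hl (fav_of h1 hG)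
  · obtain ⟨j, hj, h⟩ := hA
    exact EP.parts hN hj h hl (fav_of (hne (j := j) hl hj) hG)
  · exact EP.individual_dec EP.domar2 EP.lev EP.gch EP.rateM Pool.Agent.H962.EP.p_glue2
      Pool.Agent.H980.EP.p_clos2 EP.split2 N K hN (fun l hl => fav_of ⟨l, hl⟩ (hG l hl)) hd

theorem banach : Banach := by
  intro X _ _ _ S K E A θ hA hθ hE hS hK
  refine ⟨fun l hl hG hn => EP.bann_hyper S K E A θ hA hθ hE hS hK l hl hG hn,
    fun hG hd => EP.bann_dec S K E A θ hA hθ hE hS hK hG hd, fun s hs => ⟨fun l R h =>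
    EP.bann_qe_hyper S K E A θ s hA hθ hs hE hS hK l R h.1 h.2, fun h =>
    EP.bann_qe_dec S K E A θ s hA hθ hs hE hS hK h⟩⟩

theorem couplings : Couplings := by
  intro H _ _ _ N K η s hη hs hN hK
  refine ⟨fun l R h => LL.couplings LL.fixmu sep N K η s l R hη hs hN hK h.1 h.2, fun h => ?_⟩
  refine LL.normal_qe_dec LL.fixmu Pool.Agent.H21.LL.p_nor5 N K η s hη hs hN hK ?_ (fun r => (h r).2)
  have h1 : spectrum ℂ N ⊆ ⋃ n : ℕ, spectrum ℂ N ∩ ball (0 : ℂ) (n : ℝ) := by
    intro z hz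
    obtain ⟨n, hn⟩ := exists_nat_gt ‖z‖
    exact Set.mem_iUnion.2 ⟨n, hz, by rwa [mem_ball_zero_iff]⟩
  exact measure_mono_null h1 (measure_iUnion_null fun n => (h n).1)

theorem complements : Complements := by
  refine ⟨EP.thin_strip', fun E l η α hη hα hα1 hηα hE hne hG => ?_, Pool.Agent.H21.LL.p_nor5.2.1,
    fun H _ _ _ K η β hη hβ hK => EP.macaev_of_decay K η β hη hβ hK, fun E C ε s hs hsε h R => ⟨?_,
    Pool.Agent.H903.LL.p_box5 E C ε s R hs hsε h⟩, Pool.Agent.H337.LL.p_cap,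
    fun H _ _ _ N K l hN hK h => Pool.Agent.H363.LL.p_weyl H N K l hN hK h⟩
  · obtain ⟨φ, L, R, u, h1, h2, h3, h4⟩ := hG
    exact LL.accessible_of_graph E l η hη hE hne ⟨φ, L, α, R, u, hα, hα1, hηα, h1, h2, h3, h4⟩
  · have h1 : LL.Thin E := ⟨C, ε, hs.trans hsε, h⟩
    exact measure_mono_null Set.inter_subset_left (LL.logThin_of_thin h1 1 one_pos).1

theorem wlog' : LL.P_wlog := Pool.Agent.H738.LL.p_wlog Pool.Agent.H696.LL.p_walg
  Pool.Agent.H348.LL.p_sob

theorem toeplitzHilbert : ToeplitzHilbert := by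
  intro H _ _ _ e φ L α hα hφ hne hE T hT
  obtain ⟨p, hp, hE⟩ : ∃ p : ℝ, 1 < p ∧ LogThin (Set.range φ) p := by
    rcases hE with h | h
    · exact ⟨2, by norm_num, EP.hoelder_thin φ L α h hφ 2 (by norm_num)⟩
    · exact h
  exact LL.hilbert_chain e φ L α hα hφ hne p hp (logThin_of hE) T hT

theorem toeplitzBanach : ToeplitzBanach := by
  · intro X _ _ _ S R K hRS hSR hS hR c hc h
    have hK : ∀ n : ℤ, ‖TI.U S R n‖ ≤ K := by
      intro n
      rcases le_total 0 n with hn | hn
      · rw [TI.U_nonneg _ _ hn]; exact hS _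
      · rw [TI.U_nonpos _ _ hn]; exact hR _
    rcases h with ⟨⟨δ, hδ, hs⟩, p, hp, hE⟩ | ⟨r, hr, hs⟩
    · -- weighted Wiener algebra
      set δ' : ℝ := min δ 1 with hδ'
      have hδ'0 : 0 < δ' := lt_min hδ one_pos
      have hs' : Summable fun n : ℤ => (1 + |(n : ℝ)|) ^ δ' * ‖c n‖ := by
        refine Summable.of_nonneg_of_le (fun n => by positivity) (fun n => ?_) hs
        refine mul_le_mul_of_nonneg_right ?_ (norm_nonneg _)
        exact Real.rpow_le_rpow_of_exponent_le (by have := abs_nonneg (n : ℝ); linarith)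
          (min_le_left _ _)
      have hsum : Summable fun n : ℤ => ‖c n‖ := by
        refine Summable.of_nonneg_of_le (fun n => norm_nonneg _) (fun n => ?_) hs'
        have h1 : (1 : ℝ) ≤ (1 + |(n : ℝ)|) ^ δ' :=
          Real.one_le_rpow (by have := abs_nonneg (n : ℝ); linarith) hδ'0.le
        have := norm_nonneg (c n)
        nlinarith
      have hev : (Set.range fun t : UnitAddCircle => TI.ev t (TI.mkW c hsum))
          = Set.range fun t : UnitAddCircle => ∑' n : ℤ, c n • (fourier n t : ℂ) := by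
        refine congrArg Set.range (funext fun t => ?_)
        rw [TI.ev_apply]
        rfl
      have h := LL.w_chain wlog' K hK hRS hSR (TI.mkW c hsum) hc hδ'0 (min_le_right _ _) hs' p hp
        (by rw [hev]; exact logThin_of hE)
      rw [TI.top_split] at h
      exact h
    · -- Sobolev
      have hsum := TI.summable_of_sobolev hr hs
      have hs' : Summable fun m : ℤ => |(m : ℝ)| ^ (2 * min r 1) * ‖TI.mkW c hsum m‖ ^ 2 := by
        refine Summable.of_nonneg_of_le (fun m => by positivity) (fun m => ?_) hs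
        rw [TI.mkW_apply]
        refine mul_le_mul_of_nonneg_right ?_ (by positivity)
        by_cases hm : m = 0
        · subst hm
          have h1 : 2 * min r 1 ≠ 0 := by
            have : 0 < min r 1 := lt_min (by linarith) one_pos
            positivity
          have h2 : 2 * r ≠ 0 := by positivity
          simp [Real.zero_rpow h1, Real.zero_rpow h2]
        · have h1 : (1 : ℝ) ≤ |(m : ℝ)| := by exact_mod_cast Int.one_le_abs hm
          refine Real.rpow_le_rpow_of_exponent_le h1 ?_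
          have := min_le_left r 1
          linarith
      have h := TI.chain_sobolev K hK hRS hSR (TI.mkW c hsum) hc (lt_min hr (by norm_num))
        (min_le_right _ _) hs'
      rw [TI.top_split] at h
      exact h

theorem result : General ∧ Individual ∧ Banach ∧ Couplings ∧ Complements ∧ ToeplitzHilbert ∧
    ToeplitzBanach :=
  ⟨general, individual, banach, couplings, complements, toeplitzHilbert, toeplitzBanach⟩

end Pool.Agent.Results.MP_f981b0_an.LogLogResolvents
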