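import Pool.Agent.H272.UU.Core
import Pool.Agent.H272.UU.T4p
import Pool.Agent.H272.UU.R0
import Pool.Agent.H272.UU.R1
import Pool.Agent.H272.UU.R2
import Pool.Agent.H272.UU.R2a
import Pool.Agent.H272.UU.R2b
import Pool.Agent.H272.UU.R2c

/-!
# MP_f981b0_an: one reflexive space for the invariant subspace problem

Let `1 < p ≤ q < ∞` and let `C(p,q)` be the class of the Banach spaces which are isomorphic to
complemented subspaces of spaces with a decomposition into finite-dimensional subspaces (FDD)
satisfying a lower `q`- and an upper `p`-estimate (with constants, for finite sequences of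
consecutive blocks). All superreflexive spaces with an FDD are in one of these classes (James,
V. I. Gurariĭ and N. I. Gurariĭ), in particular the spaces `L_r`, `1 < r < ∞`, and the
Schatten classes, and so are all `ℓ_r`-sums of finite-dimensional spaces, `1 < r < ∞`.

We prove that there is ONE separable reflexive space `U` such that the invariant subspace problem
for ALL operators on ALL infinite-dimensional spaces of all these classes has a positive answer if
all operators `(R ⊕ 0) + K` on `U ⊕ U`, with `R` any operator on `U` and `K` the sum of a series of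
operators of rank one whose norms decrease as fast as we please, have nontrivial closed invariant
subspaces. For fixed `p`, `q` the space `U` can be chosen in the class, and then this is an
equivalence.

Idea of the proof. (1) The universal space `U(p,q)` (a complementably universal space for the class,
after Prus): a norm on the finitely supported vectors on a countable tree whose branches give,
up to a factor 2, all spaces with an FDD with `(p,q)`-estimates with constant one, and whose branch
projections are bounded; renorming (`R1`, `R2`) makes the constants equal to one. The `ℓ_2`-sum of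
the spaces `U(1 + 1/n, n)` serves for all classes. (2) The operator side: if `T` is an operator
without nontrivial closed invariant subspaces on a complemented subspace `X` of a space `V` with
such an FDD, translated so that it is not invertible, we choose vectors `y n` of norm one in `X`,
almost blocks of `V`, with `T (y n)` small and functionals `h n` with `h m (T (y n)) = δ m n`, such
that, with the closed span `Y` of the `y n`, the range of the adjoint of `T` meets the annihilator
of `Y` in a dense set. Then `T - N`, `N = ∑ h n (T ·) T (y n)`, induces an injective operator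
`W = X ⧸ Y → X`, and `T` factors through `W × Z` for any separable infinite-dimensional `Z`,
`T = A B`, such that `B A = (R ⊕ 0) + K` with `K` rapidly nuclear has no nontrivial closed invariant
subspace. (3) `W` is complemented in a quotient of (a space isomorphic to) `V` by a block subspace,
which has an FDD with the same estimates, hence in `U`.
-/

set_option autoImplicit false

open Pool.Agent.H272.IS Pool.Agent.H272.UU Filter Topology

namespace Pool.Agent.Results.MP_f981b0_an.OneSpace

/-- `T` has a closed invariant subspace other than `0` and the whole space. -/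
def HasInvariant {E : Type} [NormedAddCommGroup E] [NormedSpace ℂ E] (T : E →L[ℂ] E) : Prop :=
  ∃ M : Submodule ℂ E, IsClosed (M : Set E) ∧ M ≠ ⊥ ∧ M ≠ ⊤ ∧ ∀ x ∈ M, T x ∈ M

/-- `E` is reflexive: the canonical map into the bidual is onto. -/
def Reflexive (E : Type) [NormedAddCommGroup E] [NormedSpace ℂ E] : Prop :=
  Function.Surjective (NormedSpace.inclusionInDoubleDual ℂ E)

/-- `P n` are the projections onto the sums of the first `n` spaces of a decomposition of `V` into
finite-dimensional subspaces. -/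
structure IsFDD {V : Type} [NormedAddCommGroup V] [NormedSpace ℂ V] (P : ℕ → (V →L[ℂ] V)) :
    Prop where
  zero : P 0 = 0
  comp : ∀ m n x, P m (P n x) = P (min m n) x
  tendsto : ∀ x, Tendsto (fun n => P n x) atTop (𝓝 x)
  finite : ∀ n, FiniteDimensional ℂ (LinearMap.range (P n : V →ₗ[ℂ] V))

/-- `v 0, v 1, ...` are consecutive blocks: `v j` lies in the sum of the spaces of the decomposition
with the indices `m j, ..., m (j+1) - 1`. -/
def Blocks {V : Type} [NormedAddCommGroup V] [NormedSpace ℂ V] (P : ℕ → (V →L[ℂ] V))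
    (m : ℕ → ℕ) (v : ℕ → V) : Prop :=
  Monotone m ∧ (∀ j, P (m (j + 1)) (v j) = v j) ∧ ∀ j, P (m j) (v j) = 0

/-- `V` has a decomposition into finite-dimensional subspaces with a lower `q`-estimate and an upper
`p`-estimate. -/
def HasEstimates (p q : ℝ) (V : Type) [NormedAddCommGroup V] [NormedSpace ℂ V] : Prop :=
  ∃ P : ℕ → (V →L[ℂ] V), IsFDD P ∧ ∃ c C : ℝ, 0 < c ∧ ∀ m v, Blocks P m v → ∀ k : ℕ,
    c * ∑ j ∈ Finset.range k, ‖v j‖ ^ q ≤ ‖∑ j ∈ Finset.range k, v j‖ ^ q ∧
      ‖∑ j ∈ Finset.range k, v j‖ ^ p ≤ C * ∑ j ∈ Finset.range k, ‖v j‖ ^ p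

/-- `F` contains a complemented subspace isomorphic to `X`. -/
def ContainsComplemented (F X : Type) [NormedAddCommGroup F] [NormedSpace ℂ F]
    [NormedAddCommGroup X] [NormedSpace ℂ X] : Prop :=
  ∃ (i : X →L[ℂ] F) (r : F →L[ℂ] X), ∀ x, r (i x) = x

/-- the class `C(p,q)`: complemented subspaces of spaces with `(p,q)`-estimates -/
def InClass (p q : ℝ) (X : Type) [NormedAddCommGroup X] [NormedSpace ℂ X] : Prop :=
  ∃ (V : Type) (_ : NormedAddCommGroup V) (_ : NormedSpace ℂ V) (_ : CompleteSpace V),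
    HasEstimates p q V ∧ ContainsComplemented V X

/-- `K` is the sum of a series of operators `x ↦ f n x • y n` of rank one with
`‖f n‖ * ‖y n‖ ≤ a n`. -/
def RankOneSeries {E : Type} [NormedAddCommGroup E] [NormedSpace ℂ E] (a : ℕ → ℝ)
    (K : E →L[ℂ] E) : Prop :=
  ∃ (f : ℕ → (E →L[ℂ] ℂ)) (y : ℕ → E), (∀ n, ‖f n‖ * ‖y n‖ ≤ a n) ∧
    ∀ x, HasSum (fun n => f n x • y n) (K x)

/-- all operators `(x, z) ↦ (R x, 0) + K (x, z)` on `U × U`, `K` a series of operators of rank one
as above, have nontrivial closed invariant subspaces -/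
def NormalFormCase (a : ℕ → ℝ) (U : Type) [NormedAddCommGroup U] [NormedSpace ℂ U] : Prop :=
  ∀ (R : U →L[ℂ] U) (K : (U × U) →L[ℂ] (U × U)), RankOneSeries a K →
    HasInvariant (R.prodMap (0 : U →L[ℂ] U) + K)

/-- all operators on all infinite-dimensional spaces of the class have nontrivial closed invariant
subspaces -/
def ClassCase (p q : ℝ) : Prop :=
  ∀ (X : Type) [NormedAddCommGroup X] [NormedSpace ℂ X] [CompleteSpace X],
    ¬ FiniteDimensional ℂ X → InClass p q X → ∀ T : X →L[ℂ] X, HasInvariant T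

theorem noInv_of_not {E : Type} [NormedAddCommGroup E] [NormedSpace ℂ E] {T : E →L[ℂ] E}
    (h : ¬ HasInvariant T) : NoInv T := by
  intro V hV hinv
  by_contra hcon
  push Not at hcon
  exact h ⟨V, hV, hcon.1, hcon.2, hinv⟩

theorem not_of_noInv {E : Type} [NormedAddCommGroup E] [NormedSpace ℂ E] {T : E →L[ℂ] E}
    (h : NoInv T) : ¬ HasInvariant T := by
  rintro ⟨V, hV, h1, h2, hinv⟩
  rcases h V hV hinv with h3 | h3
  · exact h1 h3
  · exact h2 h3

/-- renorming: the constants can be made equal to one -/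
theorem renorm {p q : ℝ} (hp : 1 < p) (hpq : p ≤ q) {V : Type} [NormedAddCommGroup V]
    [NormedSpace ℂ V] [CompleteSpace V] (h : HasEstimates p q V) :
    ∃ (V' : Type) (_ : NormedAddCommGroup V') (_ : NormedSpace ℂ V') (_ : CompleteSpace V')
      (P' : ℕ → (V' →L[ℂ] V')), PQ p q P' ∧ Nonempty (V ≃L[ℂ] V') := by
  obtain ⟨P, hP, c, C, hc, hE⟩ := h
  obtain ⟨V₁, i1, i2, i3, C', P₁, hP₁, hz, ⟨e₁⟩⟩ := r1 V p q c C P hp hpq hc
    ⟨hP.zero, hP.comp, hP.tendsto, hP.finite, fun m hm k v h1 h2 => (hE m v ⟨hm, h1, h2⟩ k).1,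
      fun m hm k v h1 h2 => (hE m v ⟨hm, h1, h2⟩ k).2⟩
  obtain ⟨V₂, j1, j2, j3, P₂, hP₂, ⟨e₂⟩⟩ := r2 r2a r2b r2c V₁ p q C' P₁ hp hpq hP₁ hz
  exact ⟨V₂, j1, j2, j3, P₂, hP₂, ⟨e₁.trans e₂⟩⟩

theorem exists_pq {p q : ℝ} (hp : 1 < p) (hpq : p ≤ q) {X : Type} [NormedAddCommGroup X]
    [NormedSpace ℂ X] (h : InClass p q X) :
    ∃ (V : Type) (_ : NormedAddCommGroup V) (_ : NormedSpace ℂ V) (_ : CompleteSpace V)
      (P : ℕ → (V →L[ℂ] V)) (i : X →L[ℂ] V) (r : V →L[ℂ] X), PQ p q P ∧ ∀ x, r (i x) = x := by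
  obtain ⟨V, i1, i2, i3, hV, i, r, hri⟩ := h
  obtain ⟨V', j1, j2, j3, P, hP, ⟨e⟩⟩ := renorm hp hpq hV
  refine ⟨V', j1, j2, j3, P, (e : V →L[ℂ] V') ∘L i, r ∘L (e.symm : V' →L[ℂ] V), hP, fun x => ?_⟩
  change r (e.symm (e (i x))) = x
  rw [e.symm_apply_apply, hri]

theorem complemented {p q : ℝ} (hp : 1 < p) (hpq : p ≤ q) {U : Type} [NormedAddCommGroup U]
    [NormedSpace ℂ U] (hU : Uni p q U) {X : Type} [NormedAddCommGroup X] [NormedSpace ℂ X]
    (h : InClass p q X) : ContainsComplemented U X := by
  obtain ⟨V, i1, i2, i3, P, i, r, hP, hri⟩ := exists_pq hp hpq h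
  obtain ⟨i', r', hri', -, -⟩ := hU V P hP
  refine ⟨i' ∘L i, r ∘L r', fun x => ?_⟩
  change r (r' (i' (i x))) = x
  rw [hri', hri]

theorem class_of_normal {p q : ℝ} (hp : 1 < p) (hpq : p ≤ q) {U : Type} [NormedAddCommGroup U]
    [NormedSpace ℂ U] [CompleteSpace U] [TopologicalSpace.SeparableSpace U] (hU : Uni p q U)
    (a : ℕ → ℝ) (ha : ∀ n, 0 < a n) (h : NormalFormCase a U) : ClassCase p q := by
  intro X _ _ _ hX hXc T
  by_contra hcon
  obtain ⟨V, i1, i2, i3, P, i, r, hP, hri⟩ := exists_pq hp hpq hXc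
  obtain ⟨R, K, hK, hN⟩ := transfer_uni t4' hp hpq hU P hP i r hri hX T (noInv_of_not hcon) a ha
  exact not_of_noInv hN (h R K hK)

/-- products of spaces with estimates -/
theorem est_prod {p q : ℝ} (hp : 1 < p) (hpq : p ≤ q) {V : Type} [NormedAddCommGroup V]
    [NormedSpace ℂ V] {c C : ℝ} {P : ℕ → (V →L[ℂ] V)} (hc : 0 < c) (h : Est p q c C P) :
    HasEstimates p q (V × V) := by
  have hp0 : 0 < p := by linarith
  have hq0 : 0 < q := by linarith
  refine ⟨fun n => (P n).prodMap (P n), ⟨?_, ?_, ?_, ?_⟩, c / 2, 2 * |C|, by positivity, ?_⟩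
  · rw [h.zero]
    ext x <;> simp
  · rintro m n ⟨x, y⟩
    change (P m (P n x), P m (P n y)) = (P (min m n) x, P (min m n) y)
    rw [h.comp, h.comp]
  · rintro ⟨x, y⟩
    exact (h.tend x).prodMk_nhds (h.tend y)
  · intro n
    have := h.fin n
    have h1 : LinearMap.range (((P n).prodMap (P n) : (V × V) →L[ℂ] (V × V)) :
        (V × V) →ₗ[ℂ] (V × V)) ≤ (LinearMap.range (P n : V →ₗ[ℂ] V)).prod
          (LinearMap.range (P n : V →ₗ[ℂ] V)) := by
      rintro _ ⟨⟨x, y⟩, rfl⟩
      exact ⟨⟨x, rfl⟩, ⟨y, rfl⟩⟩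
    have h2 : FiniteDimensional ℂ ((LinearMap.range (P n : V →ₗ[ℂ] V)).prod
          (LinearMap.range (P n : V →ₗ[ℂ] V)) : Submodule ℂ (V × V)) :=
      (Submodule.fg_iff_finiteDimensional _).1
        (((Submodule.fg_iff_finiteDimensional _).2 this).prod
          ((Submodule.fg_iff_finiteDimensional _).2 this))
    exact Submodule.finiteDimensional_of_le h1
  · rintro m v ⟨hm, hv1, hv2⟩ k
    have e1 : ∀ j, P (m (j + 1)) (v j).1 = (v j).1 := fun j => congrArg Prod.fst (hv1 j)
    have e2 : ∀ j, P (m (j + 1)) (v j).2 = (v j).2 := fun j => congrArg Prod.snd (hv1 j)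
    have e3 : ∀ j, P (m j) (v j).1 = 0 := fun j => congrArg Prod.fst (hv2 j)
    have e4 : ∀ j, P (m j) (v j).2 = 0 := fun j => congrArg Prod.snd (hv2 j)
    have s1 : (∑ j ∈ Finset.range k, v j).1 = ∑ j ∈ Finset.range k, (v j).1 := by
      simp [Prod.fst_sum]
    have s2 : (∑ j ∈ Finset.range k, v j).2 = ∑ j ∈ Finset.range k, (v j).2 := by
      simp [Prod.snd_sum]
    have l1 := h.lower m hm k (fun j => (v j).1) e1 e3
    have l2 := h.lower m hm k (fun j => (v j).2) e2 e4
    have u1 := h.upper m hm k (fun j => (v j).1) e1 e3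
    have u2 := h.upper m hm k (fun j => (v j).2) e2 e4
    have n1 : ‖∑ j ∈ Finset.range k, (v j).1‖ ≤ ‖∑ j ∈ Finset.range k, v j‖ := by
      rw [← s1]; exact norm_fst_le _
    have n2 : ‖∑ j ∈ Finset.range k, (v j).2‖ ≤ ‖∑ j ∈ Finset.range k, v j‖ := by
      rw [← s2]; exact norm_snd_le _
    constructor
    · have h1 : ∑ j ∈ Finset.range k, ‖v j‖ ^ q ≤
          ∑ j ∈ Finset.range k, ‖(v j).1‖ ^ q + ∑ j ∈ Finset.range k, ‖(v j).2‖ ^ q := by
        rw [← Finset.sum_add_distrib]
        refine Finset.sum_le_sum (fun j _ => ?_)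
        rw [Prod.norm_def]
        rcases max_cases ‖(v j).1‖ ‖(v j).2‖ with h3 | h3
        · rw [h3.1]
          have : 0 ≤ ‖(v j).2‖ ^ q := by positivity
          linarith
        · rw [h3.1]
          have : 0 ≤ ‖(v j).1‖ ^ q := by positivity
          linarith
      have h4 : ‖∑ j ∈ Finset.range k, (v j).1‖ ^ q ≤ ‖∑ j ∈ Finset.range k, v j‖ ^ q :=
        Real.rpow_le_rpow (norm_nonneg _) n1 hq0.le
      have h5 : ‖∑ j ∈ Finset.range k, (v j).2‖ ^ q ≤ ‖∑ j ∈ Finset.range k, v j‖ ^ q :=
        Real.rpow_le_rpow (norm_nonneg _) n2 hq0.le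
      nlinarith
    · have b1 : ∀ x y : V, ‖((x, y) : V × V)‖ ^ p ≤ ‖x‖ ^ p + ‖y‖ ^ p := by
        intro x y
        rw [Prod.norm_def]
        rcases max_cases ‖x‖ ‖y‖ with h3 | h3
        · rw [h3.1]
          have : 0 ≤ ‖y‖ ^ p := by positivity
          linarith
        · rw [h3.1]
          have : 0 ≤ ‖x‖ ^ p := by positivity
          linarith
      have b2 : ‖∑ j ∈ Finset.range k, v j‖ ^ p ≤
          ‖∑ j ∈ Finset.range k, (v j).1‖ ^ p + ‖∑ j ∈ Finset.range k, (v j).2‖ ^ p := by
        rw [← s1, ← s2]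
        exact b1 _ _
      have b3 : ∑ j ∈ Finset.range k, ‖(v j).1‖ ^ p ≤ ∑ j ∈ Finset.range k, ‖v j‖ ^ p :=
        Finset.sum_le_sum (fun j _ => Real.rpow_le_rpow (norm_nonneg _) (norm_fst_le _) hp0.le)
      have b4 : ∑ j ∈ Finset.range k, ‖(v j).2‖ ^ p ≤ ∑ j ∈ Finset.range k, ‖v j‖ ^ p :=
        Finset.sum_le_sum (fun j _ => Real.rpow_le_rpow (norm_nonneg _) (norm_snd_le _) hp0.le)
      have c1 : 0 ≤ ∑ j ∈ Finset.range k, ‖(v j).1‖ ^ p :=
        Finset.sum_nonneg (fun j _ => by positivity)
      have c2 : 0 ≤ ∑ j ∈ Finset.range k, ‖(v j).2‖ ^ p :=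
        Finset.sum_nonneg (fun j _ => by positivity)
      have d1 : C * ∑ j ∈ Finset.range k, ‖(v j).1‖ ^ p ≤
          |C| * ∑ j ∈ Finset.range k, ‖v j‖ ^ p :=
        (mul_le_mul_of_nonneg_right (le_abs_self C) c1).trans
          (mul_le_mul_of_nonneg_left b3 (abs_nonneg C))
      have d2 : C * ∑ j ∈ Finset.range k, ‖(v j).2‖ ^ p ≤
          |C| * ∑ j ∈ Finset.range k, ‖v j‖ ^ p :=
        (mul_le_mul_of_nonneg_right (le_abs_self C) c2).trans
          (mul_le_mul_of_nonneg_left b4 (abs_nonneg C))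
      linarith

/-- **One reflexive space for the invariant subspace problem.** (1) For `1 < p ≤ q` there is a
separable reflexive space `U` with `(p,q)`-estimates which contains all spaces of the class
`C(p,q)` as complemented subspaces, and all operators on all infinite-dimensional spaces of the
class have nontrivial closed invariant subspaces if and only if all operators `(R ⊕ 0) + K` on
`U × U` have. (2) There is one separable reflexive space `U` which contains all spaces of all the
classes `C(p,q)` as complemented subspaces and serves for all of them: if all operators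
`(R ⊕ 0) + K` on `U × U` have nontrivial closed invariant subspaces, then so have all operators on
all infinite-dimensional spaces of all these classes. -/
theorem result :
    (∀ p q : ℝ, 1 < p → p ≤ q →
      ∃ (U : Type) (_ : NormedAddCommGroup U) (_ : NormedSpace ℂ U) (_ : CompleteSpace U)
        (_ : TopologicalSpace.SeparableSpace U), Reflexive U ∧ HasEstimates p q (U × U) ∧
        (∀ (X : Type) [NormedAddCommGroup X] [NormedSpace ℂ X] [CompleteSpace X],
          InClass p q X → ContainsComplemented U X) ∧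
        ∀ a : ℕ → ℝ, (∀ n, 0 < a n) → (ClassCase p q ↔ NormalFormCase a U)) ∧
    (∃ (U : Type) (_ : NormedAddCommGroup U) (_ : NormedSpace ℂ U) (_ : CompleteSpace U)
        (_ : TopologicalSpace.SeparableSpace U), Reflexive U ∧
        (∀ p q : ℝ, 1 < p → p ≤ q →
          ∀ (X : Type) [NormedAddCommGroup X] [NormedSpace ℂ X] [CompleteSpace X],
            InClass p q X → ContainsComplemented U X) ∧
        ∀ a : ℕ → ℝ, (∀ n, 0 < a n) → NormalFormCase a U →
          ∀ p q : ℝ, 1 < p → p ≤ q → ClassCase p q) := by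
  constructor
  · intro p q hp hpq
    obtain ⟨U, i1, i2, i3, i4, PU, hPU, hU⟩ := exists_univ p q hp hpq
    obtain ⟨C', P', hE⟩ := r0 U p q _ PU hp hpq hPU
    have hUU := est_prod hp hpq one_pos hE
    refine ⟨U, i1, i2, i3, i4, (t1 U p q _ PU hp hpq hPU).1, hUU,
      fun X _ _ _ hX => complemented hp hpq hU hX, fun a ha => ⟨fun h R K _ => ?_,
        fun h => class_of_normal hp hpq hU a ha h⟩⟩
    refine h (U × U) ?_ ⟨U × U, inferInstance, inferInstance, inferInstance, hUU,
      ContinuousLinearMap.id ℂ _, ContinuousLinearMap.id ℂ _, fun x => rfl⟩ _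
    intro hfd
    exact not_fd_of_uni hp hpq hU (FiniteDimensional.of_injective (LinearMap.inl ℂ U U)
      LinearMap.inl_injective)
  · obtain ⟨U, i1, i2, i3, i4, hrefl, hU⟩ := exists_all
    exact ⟨U, i1, i2, i3, i4, hrefl, fun p q hp hpq X _ _ _ hX =>
      complemented hp hpq (hU p q hp hpq) hX, fun a ha h p q hp hpq =>
      class_of_normal hp hpq (hU p q hp hpq) a ha h⟩

end Pool.Agent.Results.MP_f981b0_an.OneSpace
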