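import Pool.Agent.H272.UU.Core2
import Pool.Agent.H272.UU.T4p
import Pool.Agent.H272.UU.BA
import Pool.Agent.H272.WC.Quasi

/-!
# MP_f981b0_an: weakly compact operators on one universal space

Pełczyński and Kadec found a separable Banach space `U` with a decomposition into
finite-dimensional subspaces (FDD) which contains every Banach space with the bounded approximation
property (BAP) as a complemented subspace. We prove that, for each separable Banach space `F` which
contains all these spaces as complemented subspaces (for `F = U`, for instance), the invariant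
subspace problem for ALL operators on ALL infinite-dimensional reflexive spaces with the
approximation property (for reflexive spaces this is the BAP, by a theorem of Grothendieck) is
equivalent to the invariant subspace problem for a set of weakly compact operators on the single
space `F`: the operators `S = (R ⊕ 0) + K`, `F = W ⊕ Z` with `W` reflexive and `Z`
infinite-dimensional, `R` an operator on `W`, `K` the sum of a series of operators of rank one whose
norms decrease as fast as we please, which factor through a reflexive space `X` with the BAP,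
`S = B A`, `A : F → X` and `B : X → F` injective with dense ranges. A positive answer to Q1 implies
that all weakly compact operators on `F` have nontrivial closed invariant subspaces, and this
implies a positive answer to Q1 for all spaces with the approximation property.

Idea of the proof. (1) The universal space: a norm on the finitely supported vectors on a countable
tree whose branches give, up to a factor 2, all spaces with a monotone FDD. (2) The operator side:
a space `X` with the BAP is complemented in a space `V` with a monotone FDD (Pełczyński; Johnson,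
Rosenthal and Zippin). If `T` is an operator without nontrivial closed invariant subspaces on the
reflexive space `X`, translated so that it is not invertible, we choose vectors `y n` of norm one in
`X`, almost blocks of `V`, with `T (y n)` small, and functionals `h n` with `h m (T (y n)) = δ m n`,
such that, with the closed span `Y` of the `y n`, the range of the adjoint of `T` meets the
annihilator of `Y` in a dense set (here reflexivity is used). Then `T - N`,
`N = ∑ h n (T ·) T (y n)`, induces an injective operator `W = X ⧸ Y → X`, and `T` factors through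
`W × Z` for any separable infinite-dimensional `Z`, `T = A B`, such that `B A = (R ⊕ 0) + K`. (3)
`W` is reflexive and complemented in a quotient of (a space isomorphic to) `V` by a block subspace,
which has a monotone FDD, hence in `U` and in `F`. (4) Davis, Figiel, Johnson and Pełczyński
factor a weakly compact operator `S = j k` through a reflexive space; if `S` has no nontrivial
closed invariant subspace, neither has `k j`.
-/

set_option autoImplicit false

open Pool.Agent.H272.IS Pool.Agent.H272.UU Pool.Agent.H272.WC Filter Topology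

namespace Pool.Agent.Results.MP_f981b0_an.UniversalSpace

/-- `T` has a closed invariant subspace other than `0` and the whole space. -/
def HasInvariant {E : Type} [NormedAddCommGroup E] [NormedSpace ℂ E] (T : E →L[ℂ] E) : Prop :=
  ∃ M : Submodule ℂ E, IsClosed (M : Set E) ∧ M ≠ ⊥ ∧ M ≠ ⊤ ∧ ∀ x ∈ M, T x ∈ M

/-- `E` is reflexive: the canonical map into the bidual is onto. -/
def Reflexive (E : Type) [NormedAddCommGroup E] [NormedSpace ℂ E] : Prop :=
  Function.Surjective (NormedSpace.inclusionInDoubleDual ℂ E)

/-- `K` is weakly compact: the image of the closed unit ball is relatively weakly compact. -/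
def WeaklyCompact {E : Type} [NormedAddCommGroup E] [NormedSpace ℂ E] (K : E →L[ℂ] E) : Prop :=
  IsCompact (closure (toWeakSpace ℂ E '' (K '' Metric.closedBall (0 : E) 1)))

/-- the invariant subspace conjecture for the separable reflexive spaces (Q1) -/
def InvariantSubspaceConjecture : Prop :=
  ∀ (E : Type) [NormedAddCommGroup E] [NormedSpace ℂ E] [CompleteSpace E]
    [TopologicalSpace.SeparableSpace E], ¬ FiniteDimensional ℂ E → Reflexive E →
    ∀ T : E →L[ℂ] E, HasInvariant T

/-- `V` has a decomposition into finite-dimensional subspaces (FDD); `P n` are the projections onto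
the sums of the first `n` of them. -/
def HasFDD (V : Type) [NormedAddCommGroup V] [NormedSpace ℂ V] : Prop :=
  ∃ P : ℕ → (V →L[ℂ] V), P 0 = 0 ∧ (∀ m n x, P m (P n x) = P (min m n) x) ∧
    (∀ x, Tendsto (fun n => P n x) atTop (𝓝 x)) ∧
    ∀ n, FiniteDimensional ℂ (LinearMap.range (P n : V →ₗ[ℂ] V))

/-- `X` is separable and has the bounded approximation property: the identity is the pointwise
limit of a sequence of operators of finite rank. -/
def HasBAP (X : Type) [NormedAddCommGroup X] [NormedSpace ℂ X] : Prop :=
  ∃ T : ℕ → (X →L[ℂ] X), (∀ n, FiniteDimensional ℂ (LinearMap.range (T n : X →ₗ[ℂ] X))) ∧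
    ∀ x, Tendsto (fun n => T n x) atTop (𝓝 x)

/-- `F` contains a complemented subspace isomorphic to `X`. -/
def ContainsComplemented (F X : Type) [NormedAddCommGroup F] [NormedSpace ℂ F]
    [NormedAddCommGroup X] [NormedSpace ℂ X] : Prop :=
  ∃ (i : X →L[ℂ] F) (r : F →L[ℂ] X), ∀ x, r (i x) = x

/-- `F` contains every Banach space with the bounded approximation property as a complemented
subspace. -/
def Universal (F : Type) [NormedAddCommGroup F] [NormedSpace ℂ F] : Prop :=
  ∀ (X : Type) [NormedAddCommGroup X] [NormedSpace ℂ X] [CompleteSpace X],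
    HasBAP X → ContainsComplemented F X

/-- `K` is the sum of a series of operators `x ↦ f n x • y n` of rank one with
`‖f n‖ * ‖y n‖ ≤ a n`. -/
def RankOneSeries {E : Type} [NormedAddCommGroup E] [NormedSpace ℂ E] (a : ℕ → ℝ)
    (K : E →L[ℂ] E) : Prop :=
  ∃ (f : ℕ → (E →L[ℂ] ℂ)) (y : ℕ → E), (∀ n, ‖f n‖ * ‖y n‖ ≤ a n) ∧
    ∀ x, HasSum (fun n => f n x • y n) (K x)

/-- `S = (R ⊕ 0) + K`, where `F = i(W) ⊕ ker r` with `W` reflexive and `ker r`
infinite-dimensional, `R` is an operator on `W` and `K` a series of operators of rank one as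
above. -/
def NormalForm {F : Type} [NormedAddCommGroup F] [NormedSpace ℂ F] (a : ℕ → ℝ)
    (S : F →L[ℂ] F) : Prop :=
  ∃ (W : Type) (_ : NormedAddCommGroup W) (_ : NormedSpace ℂ W) (_ : CompleteSpace W)
    (i : W →L[ℂ] F) (r : F →L[ℂ] W) (R : W →L[ℂ] W) (K : F →L[ℂ] F), Reflexive W ∧
    (∀ w, r (i w) = w) ∧ ¬ FiniteDimensional ℂ (LinearMap.ker (r : F →ₗ[ℂ] W)) ∧
    RankOneSeries a K ∧ S = i ∘L (R ∘L r) + K

/-- `S` factors through a reflexive space with the bounded approximation property, and both factors
are injective with dense ranges. -/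
def FactorsThroughReflexive {F : Type} [NormedAddCommGroup F] [NormedSpace ℂ F]
    (S : F →L[ℂ] F) : Prop :=
  ∃ (X : Type) (_ : NormedAddCommGroup X) (_ : NormedSpace ℂ X) (_ : CompleteSpace X)
    (A : F →L[ℂ] X) (B : X →L[ℂ] F), Reflexive X ∧ HasBAP X ∧ Function.Injective A ∧
    DenseRange A ∧ Function.Injective B ∧ DenseRange B ∧ S = B ∘L A

/-- all weakly compact operators on `F` have nontrivial closed invariant subspaces -/
def WeaklyCompactCase (F : Type) [NormedAddCommGroup F] [NormedSpace ℂ F] : Prop :=
  ∀ S : F →L[ℂ] F, WeaklyCompact S → HasInvariant S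

/-- all operators on `F` which have the normal form and the factorization have nontrivial closed
invariant subspaces -/
def NormalFormCase (a : ℕ → ℝ) (F : Type) [NormedAddCommGroup F] [NormedSpace ℂ F] : Prop :=
  ∀ S : F →L[ℂ] F, NormalForm a S → FactorsThroughReflexive S → HasInvariant S

/-- all operators on all infinite-dimensional reflexive spaces with the bounded approximation
property have nontrivial closed invariant subspaces -/
def ReflexiveBAPCase : Prop :=
  ∀ (X : Type) [NormedAddCommGroup X] [NormedSpace ℂ X] [CompleteSpace X],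
    ¬ FiniteDimensional ℂ X → Reflexive X → HasBAP X → ∀ T : X →L[ℂ] X, HasInvariant T

theorem not_iff_noInv {E : Type} [NormedAddCommGroup E] [NormedSpace ℂ E] {T : E →L[ℂ] E} :
    ¬ HasInvariant T ↔ NoInv T := by
  constructor
  · intro h V hV hinv
    by_contra hcon
    push Not at hcon
    exact h ⟨V, hV, hcon.1, hcon.2, hinv⟩
  · rintro h ⟨V, hV, h1, h2, hinv⟩
    rcases h V hV hinv with h3 | h3
    · exact h1 h3
    · exact h2 h3

theorem uwc_iff {E : Type} [NormedAddCommGroup E] [NormedSpace ℂ E] {K : E →L[ℂ] E} :
    WeaklyCompact K ↔ Q99.RD.UWC K :=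
  ⟨fun h => Q99.RD.WeaklyCompact.uwc h, fun h => h.weaklyCompact⟩

/-- Q1 implies that weakly compact operators have invariant subspaces. -/
theorem weaklyCompact_of_conj (hQ : InvariantSubspaceConjecture) {E : Type} [NormedAddCommGroup E]
    [NormedSpace ℂ E] [CompleteSpace E] (hE : ¬ FiniteDimensional ℂ E) :
    WeaklyCompactCase E := by
  intro S hS
  by_contra hcon
  rw [not_iff_noInv] at hcon
  have hne : S ≠ 0 := by
    have h1 := aeval_ne_zero hcon hE Polynomial.X_ne_zero
    rwa [Polynomial.aeval_X] at h1
  have hK : S ∈ polys S := by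
    have h1 := mem_polys_aeval S Polynomial.X
    rwa [Polynomial.aeval_X] at h1
  obtain ⟨hi, hd⟩ := inj_dense hcon hK hne
  obtain ⟨R, _, _, _, A, j, k, hR, -, -, hk, -, -, -, -, -, h1, -⟩ :=
    reduce S S hK (uwc_iff.1 hS) hi hd
  have hA : NoInv A := h1.1 hcon
  have hsep : TopologicalSpace.SeparableSpace R := separable_of_noInv hA
  have hRfd : ¬ FiniteDimensional ℂ R := fun h =>
    hE (FiniteDimensional.of_injective (k : E →ₗ[ℂ] R) hk)
  exact not_iff_noInv.2 hA (hQ R hRfd hR.surjective A)

theorem not_fd_of_universal {F : Type} [NormedAddCommGroup F] [NormedSpace ℂ F]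
    (hF : Universal F) : ¬ FiniteDimensional ℂ F := by
  obtain ⟨W, i1, i2, i3, P, hP, hW⟩ := exists_infinite 2 2 (by norm_num) le_rfl
  obtain ⟨i, r, hri⟩ := hF W ⟨P, hP.fin, hP.tend⟩
  intro hfd
  apply hW
  have hinj : Function.Injective (i : W →ₗ[ℂ] F) := fun x y hxy => by
    have h1 : i x = i y := hxy
    rw [← hri x, ← hri y, h1]
  exact FiniteDimensional.of_injective (i : W →ₗ[ℂ] F) hinj

/-- the square of a space with the bounded approximation property -/
theorem bap_prod {U : Type} [NormedAddCommGroup U] [NormedSpace ℂ U] (h : HasBAP U) :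
    HasBAP (U × U) := by
  obtain ⟨T, hT1, hT2⟩ := h
  refine ⟨fun n => (T n).prodMap (T n), fun n => ?_, ?_⟩
  · have := hT1 n
    have h1 : LinearMap.range (((T n).prodMap (T n) : (U × U) →L[ℂ] (U × U)) :
        (U × U) →ₗ[ℂ] (U × U)) ≤ (LinearMap.range (T n : U →ₗ[ℂ] U)).prod
          (LinearMap.range (T n : U →ₗ[ℂ] U)) := by
      rintro _ ⟨⟨x, y⟩, rfl⟩
      exact ⟨⟨x, rfl⟩, ⟨y, rfl⟩⟩
    have h2 : FiniteDimensional ℂ ((LinearMap.range (T n : U →ₗ[ℂ] U)).prod
          (LinearMap.range (T n : U →ₗ[ℂ] U)) : Submodule ℂ (U × U)) :=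
      (Submodule.fg_iff_finiteDimensional _).1
        (((Submodule.fg_iff_finiteDimensional _).2 this).prod
          ((Submodule.fg_iff_finiteDimensional _).2 this))
    exact Submodule.finiteDimensional_of_le h1
  · rintro ⟨x, y⟩
    exact (hT2 x).prodMk_nhds (hT2 y)

/-- **Weakly compact operators on one universal space.** There is a separable Banach space with an
FDD which contains all Banach spaces with the bounded approximation property as complemented
subspaces. For each separable Banach space `F` which contains all these spaces as complemented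
subspaces: Q1 implies that all weakly compact operators on `F` have nontrivial closed invariant
subspaces, and, for all `a n > 0`, this implies that all operators `S = (R ⊕ 0) + K` on `F` which
factor through a reflexive space with the bounded approximation property have nontrivial closed
invariant subspaces, and this is the case if and only if all operators on all infinite-dimensional
reflexive spaces with the bounded approximation property have nontrivial closed invariant
subspaces. -/
theorem result :
    (∃ (U : Type) (_ : NormedAddCommGroup U) (_ : NormedSpace ℂ U) (_ : CompleteSpace U)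
      (_ : TopologicalSpace.SeparableSpace U), HasFDD U ∧ Universal U) ∧
    ∀ (F : Type) [NormedAddCommGroup F] [NormedSpace ℂ F] [CompleteSpace F]
      [TopologicalSpace.SeparableSpace F], Universal F →
      (InvariantSubspaceConjecture → WeaklyCompactCase F) ∧
      ∀ a : ℕ → ℝ, (∀ n, 0 < a n) →
        (WeaklyCompactCase F → NormalFormCase a F) ∧
        (NormalFormCase a F ↔ ReflexiveBAPCase) := by
  obtain ⟨U, i1, i2, i3, i4, PU, hPU, hU⟩ := exists_univ2
  refine ⟨⟨U, i1, i2, i3, i4, ⟨PU, hPU⟩, ?_⟩, ?_⟩
  · rintro X _ _ _ ⟨T, hT1, hT2⟩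
    obtain ⟨V, j1, j2, j3, P, i, r, hP, hri⟩ := ba X T hT1 hT2
    obtain ⟨i', r', hri', -, -⟩ := hU V P hP
    refine ⟨i' ∘L i, r ∘L r', fun x => ?_⟩
    change r (r' (i' (i x))) = x
    rw [hri', hri]
  intro F _ _ _ _ hF
  have hFfd : ¬ FiniteDimensional ℂ F := not_fd_of_universal hF
  refine ⟨fun hQ => weaklyCompact_of_conj hQ hFfd, fun a ha => ⟨?_, ?_, ?_⟩⟩
  · intro h S _ hS
    refine h S ?_
    obtain ⟨X, j1, j2, j3, A, B, hX, -, -, -, -, -, rfl⟩ := hS
    exact wf F X B A hX
  · intro h X _ _ _ hX hrefl hbap T
    by_contra hcon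
    obtain ⟨i₀, r₀, h₀⟩ := hF (U × U) (bap_prod ⟨PU, hPU.2.2.2, hPU.2.2.1⟩)
    obtain ⟨T', hT1, hT2⟩ := hbap
    obtain ⟨V, j1, j2, j3, P, i, r, hP, hri⟩ := ba X T' hT1 hT2
    obtain ⟨W, k1, k2, k3, iF, rF, R, A, B, hW, hrF, hker, hAB, hK, hN⟩ :=
      transfer_uniF t4' hU i₀ r₀ h₀ P hP i r hri hX hrefl T (not_iff_noInv.1 hcon) a ha
    refine not_iff_noInv.2 hN (h (B ∘L A) ⟨W, k1, k2, k3, iF, rF, R, _, hW, hrF, hker, hK, ?_⟩
      ⟨X, inferInstance, inferInstance, inferInstance, A, B, hrefl, ⟨T', hT1, hT2⟩, hAB.1,
        hAB.2.1, hAB.2.2.1, hAB.2.2.2, rfl⟩)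
    abel
  · intro h S _ hS
    obtain ⟨X, j1, j2, j3, A, B, hX, hbap, hA1, hA2, hB1, hB2, rfl⟩ := hS
    by_contra hcon
    have hXfd : ¬ FiniteDimensional ℂ X := fun hfd =>
      hFfd (FiniteDimensional.of_injective (A : F →ₗ[ℂ] X) hA1)
    have h1 : NoInv (A ∘L B) := NoInv.swap hB1 hA2 (not_iff_noInv.1 hcon)
    exact not_iff_noInv.2 h1 (h X hXfd hX hbap (A ∘L B))

end Pool.Agent.Results.MP_f981b0_an.UniversalSpace
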